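import Pool.Agent.W495.TB.Stms

/-!
# TB-COMB: decomposition of balanced families without repetitions
-/

set_option autoImplicit false
set_option linter.unusedSectionVars false

namespace Pool.Agent.W515.TB

open Pool.Agent.W495.TA Pool.Agent.W495.TB

section

variable {G W κ : Type} [Group G] [Fintype G] [Fintype W] [MulAction G W] [Fintype κ]

/-- splitting off an opposite pair -/
theorem split_pair [DecidableEq κ] (t : W → G → ℤ) (Q : (κ : Type) → (κ → G → ℤ) → Prop)
    (hQ : Closed G Q) (I : κ → W) (k k' : κ) (hk : k ≠ k') (ht : t (I k) = -t (I k'))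
    (h : Q {x : κ // x ≠ k ∧ x ≠ k'} (fun x => t (I x.1))) : Q κ (fun k => t (I k)) := by
  let F : {x : κ // x ≠ k ∧ x ≠ k'} ⊕ Fin 2 → κ := Sum.elim Subtype.val ![k, k']
  have hF : Function.Bijective F := by
    constructor
    · rintro (x | x) (y | y) hxy
      · exact congrArg Sum.inl (Subtype.ext hxy)
      · exfalso
        fin_cases y
        · exact x.2.1 hxy
        · exact x.2.2 hxy
      · exfalso
        fin_cases x
        · exact y.2.1 hxy.symm
        · exact y.2.2 hxy.symm
      · fin_cases x <;> fin_cases y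
        · rfl
        · exact absurd hxy hk
        · exact absurd hxy.symm hk
        · rfl
    · intro x
      by_cases h1 : x = k
      · exact ⟨Sum.inr 0, h1.symm⟩
      · by_cases h2 : x = k'
        · exact ⟨Sum.inr 1, h2.symm⟩
        · exact ⟨Sum.inl ⟨x, h1, h2⟩, rfl⟩
  have h1 := hQ.sum _ _ _ _ h (hQ.pair (t (I k)))
  refine hQ.reindex _ _ (Equiv.ofBijective F hF) _ _ ?_ h1
  rintro (x | x)
  · rfl
  · fin_cases x
    · rfl
    · show t (I k') = -t (I k)
      rw [ht, neg_neg]

/-- no opposite pairs: a vanishing subsum has not one or two terms -/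
theorem sub_card (t : W → G → ℤ) (P : Finset W) (hP0 : ∀ w ∈ P, t w ≠ 0)
    (hP : ∀ w ∈ P, ∀ w' ∈ P, w ≠ w' → t w ≠ -t w') (P' : Finset W) (hP' : P' ⊆ P)
    (hs : ∀ g, ∑ w ∈ P', t w g = 0) : P'.card ≠ 1 ∧ P'.card ≠ 2 := by
  classical
  constructor
  · intro h1
    obtain ⟨w, hw⟩ := Finset.card_eq_one.1 h1
    rw [hw] at hs hP'
    refine hP0 w (hP' (Finset.mem_singleton_self w)) ?_
    funext g
    have := hs g
    rwa [Finset.sum_singleton] at this
  · intro h2
    obtain ⟨w, w', hne, hw⟩ := Finset.card_eq_two.1 h2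
    rw [hw] at hs hP'
    refine hP w (hP' (by simp)) w' (hP' (by simp)) hne ?_
    funext g
    have := hs g
    rw [Finset.sum_pair hne] at this
    rw [Pi.neg_apply]
    linarith

end

theorem comb4 : S_comb4 := by
  classical
  intro G W _ _ _ _ c hc hcc hcW t htg htc hW Q hQ H
  have ht0 : ∀ (g : G) (w : W), t (g • w) = 0 ↔ t w = 0 := by
    intro g w
    constructor
    · intro h
      funext x
      have := congrFun h (x * g⁻¹)
      rw [htg, inv_mul_cancel_right] at this
      exact this
    · intro h
      funext x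
      rw [htg, h]
      rfl
  have htc' : ∀ w, t (c • w) = -t w := fun w => funext fun g => htc w g
  have hccw : ∀ w : W, c • c • w = w := by
    intro w
    rw [← mul_smul, hcc, one_smul]
  -- induction on the number of elements
  suffices main : ∀ (n : ℕ) (κ : Type) [Fintype κ] (I : κ → W), Fintype.card κ = n →
      Function.Injective I → (∀ g, ∑ k, t (I k) g = 0) → Even (Fintype.card κ) →
      Q κ (fun k => t (I k)) by
    intro κ _ I hI hsum heven
    exact main _ κ I rfl hI hsum heven
  intro n
  induction n using Nat.strong_induction_on with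
  | _ n ih =>
  intro κ _ I hn hI hsum heven
  by_cases hA : ∃ k k' : κ, k ≠ k' ∧ t (I k) = -t (I k')
  · obtain ⟨k, k', hk, ht⟩ := hA
    refine split_pair t Q hQ I k k' hk ht ?_
    have hset : Finset.univ.filter (fun x : κ => x ≠ k ∧ x ≠ k') =
        (Finset.univ.erase k).erase k' := by
      ext x
      simp only [Finset.mem_filter, Finset.mem_univ, true_and, Finset.mem_erase, and_true]
      tauto
    have hk' : k' ∈ Finset.univ.erase k := Finset.mem_erase.2 ⟨hk.symm, Finset.mem_univ _⟩
    have hcard : Fintype.card {x : κ // x ≠ k ∧ x ≠ k'} = Fintype.card κ - 1 - 1 := by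
      rw [Fintype.card_subtype, hset, Finset.card_erase_of_mem hk',
        Finset.card_erase_of_mem (Finset.mem_univ _), Finset.card_univ]
    have h2 : 2 ≤ Fintype.card κ := by
      have h3 := Finset.card_le_univ ({k, k'} : Finset κ)
      rwa [Finset.card_pair hk] at h3
    refine ih _ ?_ _ _ rfl ?_ ?_ ?_
    · rw [hcard]
      omega
    · intro x y hxy
      exact Subtype.ext (hI hxy)
    · intro g
      have h3 : ∑ x : {x : κ // x ≠ k ∧ x ≠ k'}, t (I x.1) g =
          ∑ x ∈ Finset.univ.filter (fun x : κ => x ≠ k ∧ x ≠ k'), t (I x) g :=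
        (Finset.sum_subtype _ (fun x => by simp) (fun x => t (I x) g)).symm
      rw [h3, hset]
      have h4 := Finset.add_sum_erase Finset.univ (fun x => t (I x) g) (Finset.mem_univ k)
      have h5 := Finset.add_sum_erase (Finset.univ.erase k) (fun x => t (I x) g) hk'
      have h6 := hsum g
      have h7 := congrFun ht g
      rw [Pi.neg_apply] at h7
      linarith
    · rw [hcard]
      obtain ⟨a, ha⟩ := heven
      exact ⟨a - 1, by omega⟩
  -- no opposite pairs
  push Not at hA
  set P : Finset W := Finset.univ.filter (fun w => t w ≠ 0 ∧ ∃ k, I k = w) with hPdef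
  have hPm : ∀ w, w ∈ P ↔ t w ≠ 0 ∧ ∃ k, I k = w := by
    intro w
    rw [hPdef, Finset.mem_filter]
    exact ⟨fun h => h.2, fun h => ⟨Finset.mem_univ _, h⟩⟩
  have hP0 : ∀ w ∈ P, t w ≠ 0 := fun w hw => ((hPm w).1 hw).1
  have hPne : ∀ w ∈ P, ∀ w' ∈ P, w ≠ w' → t w ≠ -t w' := by
    intro w hw w' hw' hne
    obtain ⟨_, k, rfl⟩ := (hPm w).1 hw
    obtain ⟨_, k', rfl⟩ := (hPm w').1 hw'
    exact hA k k' (fun h => hne (by rw [h]))
  have hcP : ∀ w ∈ P, c • w ∉ P := by
    intro w hw hcw
    exact hPne (c • w) hcw w hw (hcW w) (htc' w)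
  have hPsum : ∀ g, ∑ w ∈ P, t w g = 0 := by
    intro g
    have h1 : ∑ w ∈ Finset.univ.image I, t w g = 0 := by
      rw [Finset.sum_image (fun x _ y _ h => hI h)]
      exact hsum g
    have h2 : ∑ w ∈ P, t w g = ∑ w ∈ Finset.univ.image I, t w g := by
      refine Finset.sum_subset ?_ ?_
      · intro w hw
        obtain ⟨_, k, hk⟩ := (hPm w).1 hw
        exact Finset.mem_image.2 ⟨k, Finset.mem_univ _, hk⟩
      · intro w hw hwP
        obtain ⟨k, _, hk⟩ := Finset.mem_image.1 hw
        by_contra hne
        apply hwP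
        rw [hPm]
        refine ⟨?_, k, hk⟩
        intro h0
        rw [h0] at hne
        exact hne rfl
    rw [h2, h1]
  -- the number of zeros
  set K0 : Finset κ := Finset.univ.filter (fun k => t (I k) = 0) with hK0
  have hK0c : K0.card ≤ 1 := by
    rw [Finset.card_le_one]
    intro a ha b hb
    by_contra hab
    have h1 := (Finset.mem_filter.1 ha).2
    have h2 := (Finset.mem_filter.1 hb).2
    exact hA a b hab (by rw [h1, h2, neg_zero])
  have hcardκ : Fintype.card κ = P.card + K0.card := by
    have h1 : P = (Finset.univ.filter (fun k => ¬ t (I k) = 0)).image I := by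
      ext w
      rw [hPm, Finset.mem_image]
      constructor
      · rintro ⟨h0, k, rfl⟩
        exact ⟨k, Finset.mem_filter.2 ⟨Finset.mem_univ _, h0⟩, rfl⟩
      · rintro ⟨k, hk, rfl⟩
        exact ⟨(Finset.mem_filter.1 hk).2, k, rfl⟩
    rw [h1, Finset.card_image_of_injective _ hI, hK0, add_comm,
      Finset.card_filter_add_card_filter_not, Finset.card_univ]
  -- the image of `P` under `c`
  set cP : Finset W := P.image (fun w => c • w) with hcPdef
  have hcPm : ∀ w, w ∈ cP ↔ c • w ∈ P := by
    intro w
    rw [hcPdef, Finset.mem_image]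
    constructor
    · rintro ⟨v, hv, rfl⟩
      rwa [hccw]
    · intro h
      exact ⟨c • w, h, hccw w⟩
  have hcPc : cP.card = P.card := Finset.card_image_of_injective _ (MulAction.injective c)
  have hdisj : Disjoint P cP := by
    rw [Finset.disjoint_left]
    intro w hw hw'
    exact hcP w hw ((hcPm w).1 hw')
  have hle : P.card + cP.card ≤ Fintype.card W := by
    rw [← Finset.card_union_of_disjoint hdisj]
    exact Finset.card_le_univ _
  have h12 := sub_card t P hP0 hPne P (Finset.Subset.refl _) hPsum
  -- the empty case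
  by_cases hPe : P.card = 0
  · have h0 : Fintype.card κ = 0 := by
      obtain ⟨a, ha⟩ := heven
      omega
    have : IsEmpty κ := Fintype.card_eq_zero_iff.1 h0
    exact hQ.empty κ _
  have h34 : P.card = 3 ∨ P.card = 4 := by
    obtain ⟨h1, h2⟩ := h12
    omega
  -- every point outside of `P` and `cP` has `t = 0`
  have hout : ∀ w, w ∉ P → c • w ∉ P → t w = 0 := by
    intro w hw hcw
    rw [← hcPm] at hcw
    rcases h34 with h3 | h4
    · -- a zero
      have hK1 : K0.card = 1 := by
        obtain ⟨a, ha⟩ := heven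
        omega
      obtain ⟨k0, hk0⟩ := Finset.card_eq_one.1 hK1
      have hz : t (I k0) = 0 := by
        have : k0 ∈ K0 := by rw [hk0]; exact Finset.mem_singleton_self _
        exact (Finset.mem_filter.1 this).2
      by_contra htw
      have hd2 : Disjoint (P ∪ cP) {I k0, c • I k0, w} := by
        rw [Finset.disjoint_right]
        intro v hv
        rw [Finset.mem_union, not_or]
        simp only [Finset.mem_insert, Finset.mem_singleton] at hv
        rcases hv with rfl | rfl | rfl
        · refine ⟨fun h => hP0 _ h hz, fun h => ?_⟩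
          rw [hcPm] at h
          exact hP0 _ h ((ht0 c _).2 hz)
        · refine ⟨fun h => hP0 _ h ((ht0 c _).2 hz), fun h => ?_⟩
          rw [hcPm, hccw] at h
          exact hP0 _ h hz
        · exact ⟨hw, hcw⟩
      have hc3 : ({I k0, c • I k0, w} : Finset W).card = 3 := by
        rw [Finset.card_eq_three]
        refine ⟨I k0, c • I k0, w, (hcW _).symm, ?_, ?_, rfl⟩
        · rintro rfl
          exact htw hz
        · rintro rfl
          exact htw ((ht0 c _).2 hz)
      have h5 := Finset.card_le_univ ((P ∪ cP) ∪ {I k0, c • I k0, w})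
      rw [Finset.card_union_of_disjoint hd2, Finset.card_union_of_disjoint hdisj, hc3] at h5
      omega
    · exfalso
      have hd2 : Disjoint (P ∪ cP) {w} := by
        rw [Finset.disjoint_right]
        intro v hv
        rw [Finset.mem_singleton] at hv
        rw [Finset.mem_union, not_or, hv]
        exact ⟨hw, hcw⟩
      have h5 := Finset.card_le_univ ((P ∪ cP) ∪ {w})
      rw [Finset.card_union_of_disjoint hd2, Finset.card_union_of_disjoint hdisj,
        Finset.card_singleton] at h5
      omega
  -- the sign function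
  set s : W → ℤ := fun w => if w ∈ P then 1 else if c • w ∈ P then -1 else 0 with hs
  have hs1 : ∀ w, w ∈ P → s w = 1 := by
    intro w hw
    simp only [hs]
    rw [if_pos hw]
  have hs2 : ∀ w, c • w ∈ P → s w = -1 := by
    intro w hw
    have h1 : w ∉ P := fun h => hcP w h hw
    simp only [hs]
    rw [if_neg h1, if_pos hw]
  have hs3 : ∀ w, w ∉ P → c • w ∉ P → s w = 0 := by
    intro w h1 h2
    simp only [hs]
    rw [if_neg h1, if_neg h2]
  have htri : ∀ w, (w ∈ P ∧ s w = 1) ∨ (c • w ∈ P ∧ s w = -1) ∨
      (w ∉ P ∧ c • w ∉ P ∧ s w = 0 ∧ t w = 0) := by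
    intro w
    by_cases h1 : w ∈ P
    · exact Or.inl ⟨h1, hs1 w h1⟩
    · by_cases h2 : c • w ∈ P
      · exact Or.inr (Or.inl ⟨h2, hs2 w h2⟩)
      · exact Or.inr (Or.inr ⟨h1, h2, hs3 w h1 h2, hout w h1 h2⟩)
  have hs1' : ∀ w, s w = 1 ↔ w ∈ P := by
    intro w
    refine ⟨fun h => ?_, hs1 w⟩
    rcases htri w with h1 | h1 | h1
    · exact h1.1
    · rw [h1.2] at h; exact absurd h (by norm_num)
    · rw [h1.2.2.1] at h; exact absurd h (by norm_num)
  have hs0 : ∀ w, s w = 0 ↔ t w = 0 := by
    intro w
    rcases htri w with h1 | h1 | h1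
    · rw [h1.2]
      exact ⟨fun h => absurd h one_ne_zero, fun h => absurd h (hP0 w h1.1)⟩
    · rw [h1.2]
      refine ⟨fun h => absurd h (by norm_num), fun h => absurd ((ht0 c w).2 h) (hP0 _ h1.1)⟩
    · exact ⟨fun _ => h1.2.2.2, fun _ => h1.2.2.1⟩
  have hodd : ∀ w, s (c • w) = -s w := by
    intro w
    rcases htri w with h1 | h1 | h1
    · rw [h1.2, hs2 (c • w) (by rw [hccw]; exact h1.1)]
    · rw [h1.2, hs1 _ h1.1]
      norm_num
    · rw [h1.2.2.1, hs3 (c • w) h1.2.1 (by rw [hccw]; exact h1.1)]
      norm_num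
  have hval : ∀ w, s w = 1 ∨ s w = -1 ∨ s w = 0 := by
    intro w
    rcases htri w with h1 | h1 | h1
    · exact Or.inl h1.2
    · exact Or.inr (Or.inl h1.2)
    · exact Or.inr (Or.inr h1.2.2.1)
  -- sums over all points of odd times odd functions
  have hsum2 : ∀ f : W → ℤ, (∀ w, f (c • w) = f w) → (∀ w, t w = 0 → f w = 0) →
      ∑ w, f w = 2 * ∑ w ∈ P, f w := by
    intro f hf hf0
    have h1 : ∑ w, f w = ∑ w ∈ P ∪ cP, f w := by
      symm
      refine Finset.sum_subset (Finset.subset_univ _) ?_
      intro w _ hw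
      rw [Finset.mem_union, not_or, hcPm] at hw
      exact hf0 w (hout w hw.1 hw.2)
    rw [h1, Finset.sum_union hdisj, hcPdef, Finset.sum_image (fun x _ y _ h => by
      exact MulAction.injective c h), Finset.sum_congr rfl (fun w _ => hf w), two_mul]
  have hrel : ∀ g, ∑ w, s w * t w g = 0 := by
    intro g
    rw [hsum2 (fun w => s w * t w g)]
    · rw [Finset.sum_congr rfl (fun w hw => by rw [hs1 w hw, one_mul]), hPsum, mul_zero]
    · intro w
      show s (c • w) * t (c • w) g = s w * t w g
      rw [hodd, htc]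
      ring
    · intro w hw
      show s w * t w g = 0
      rw [hw, Pi.zero_apply, mul_zero]
  -- semi-invariance
  have hsemi : ∀ g : G, (∀ w, s (g • w) = s w) ∨ ∀ w, s (g • w) = -s w := by
    intro g
    have hgc : ∀ w : W, g • c • w = c • g • w := by
      intro w
      rw [← mul_smul, ← mul_smul, hc g]
    have hS12 : ∀ h, ∑ w ∈ P, t (g • w) h = 0 := by
      intro h
      rw [← hPsum (h * g)]
      exact Finset.sum_congr rfl fun w _ => htg g h w
    have hS12' : ∀ h, ∑ w ∈ P, s (g • w) * t (g • w) h = 0 := by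
      intro h
      have h1 : ∑ w, s (g • w) * t (g • w) h = 0 := by
        rw [← hrel h]
        exact Equiv.sum_comp (MulAction.toPerm g) (fun w => s w * t w h)
      rw [hsum2 (fun w => s (g • w) * t (g • w) h)] at h1
      · linarith
      · intro w
        show s (g • c • w) * t (g • c • w) h = s (g • w) * t (g • w) h
        rw [hgc, hodd, htc]
        ring
      · intro w hw
        show s (g • w) * t (g • w) h = 0
        rw [(ht0 g w).2 hw, Pi.zero_apply, mul_zero]
    have hne : ∀ w ∈ P, s (g • w) = 1 ∨ s (g • w) = -1 := by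
      intro w hw
      rcases hval (g • w) with h | h | h
      · exact Or.inl h
      · exact Or.inr h
      · exact absurd ((ht0 g w).1 ((hs0 _).1 h)) (hP0 w hw)
    set P1 := P.filter (fun w => s (g • w) = 1) with hP1
    set P2 := P.filter (fun w => ¬ s (g • w) = 1) with hP2
    have hP1s : ∀ h, ∑ w ∈ P1, t (g • w) h = 0 := by
      intro h
      have h1 : ∑ w ∈ P, (t (g • w) h + s (g • w) * t (g • w) h) = 2 * ∑ w ∈ P1, t (g • w) h := by
        have h2 : ∑ w ∈ P1, t (g • w) h = ∑ w ∈ P, if s (g • w) = 1 then t (g • w) h else 0 :=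
          Finset.sum_filter _ _
        rw [h2, Finset.mul_sum]
        refine Finset.sum_congr rfl fun w hw => ?_
        rcases hne w hw with h | h
        · rw [h, if_pos rfl]; ring
        · rw [h, if_neg (by norm_num)]; ring
      rw [Finset.sum_add_distrib, hS12, hS12'] at h1
      linarith
    have hP2s : ∀ h, ∑ w ∈ P2, t (g • w) h = 0 := by
      intro h
      have h1 := Finset.sum_filter_add_sum_filter_not P (fun w => s (g • w) = 1)
        (fun w => t (g • w) h)
      rw [hS12 h] at h1
      have h2 := hP1s h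
      rw [hP1] at h2
      rw [h2, zero_add] at h1
      exact h1
    have hback : ∀ P' : Finset W, (∀ h, ∑ w ∈ P', t (g • w) h = 0) → ∀ h, ∑ w ∈ P', t w h = 0 := by
      intro P' hP' h
      rw [← hP' (h * g⁻¹)]
      refine Finset.sum_congr rfl fun w _ => ?_
      rw [htg, inv_mul_cancel_right]
    have hc1 := sub_card t P hP0 hPne P1 (Finset.filter_subset _ _) (hback P1 hP1s)
    have hc2 := sub_card t P hP0 hPne P2 (Finset.filter_subset _ _) (hback P2 hP2s)
    have hc12 : P1.card + P2.card = P.card := Finset.card_filter_add_card_filter_not _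
    have hzero : P1.card = 0 ∨ P2.card = 0 := by
      obtain ⟨a1, a2⟩ := hc1
      obtain ⟨b1, b2⟩ := hc2
      omega
    rcases hzero with h0 | h0
    · right
      rw [Finset.card_eq_zero] at h0
      have hall : ∀ w ∈ P, s (g • w) = -1 := by
        intro w hw
        rcases hne w hw with h | h
        · exfalso
          have : w ∈ P1 := Finset.mem_filter.2 ⟨hw, h⟩
          rw [h0] at this
          exact absurd this (Finset.notMem_empty _)
        · exact h
      intro w
      rcases htri w with h1 | h1 | h1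
      · rw [h1.2, hall w h1.1]
      · have h2 := hall _ h1.1
        rw [hgc, hodd] at h2
        rw [h1.2]
        linarith
      · rw [h1.2.2.1, (hs0 _).2 ((ht0 g w).2 h1.2.2.2), neg_zero]
    · left
      rw [Finset.card_eq_zero] at h0
      have hall : ∀ w ∈ P, s (g • w) = 1 := by
        intro w hw
        by_contra h
        have : w ∈ P2 := Finset.mem_filter.2 ⟨hw, h⟩
        rw [h0] at this
        exact absurd this (Finset.notMem_empty _)
      intro w
      rcases htri w with h1 | h1 | h1
      · rw [h1.2, hall w h1.1]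
      · have h2 := hall _ h1.1
        rw [hgc, hodd] at h2
        rw [h1.2]
        linarith
      · rw [h1.2.2.1, (hs0 _).2 ((ht0 g w).2 h1.2.2.2)]
  have hfin : ∀ w w', t w = t w' → s w = s w' := by
    -- the mixed case
    have hmix : ∀ w w', t w = t w' → w ∈ P → c • w' ∈ P → False := by
      intro w w' htw h1 h2
      by_cases h3 : w = c • w'
      · have h4 : t w = -t w := by
          conv_lhs => rw [h3, htc', ← htw]
        apply hP0 w h1
        funext g
        have h5 := congrFun h4 g
        rw [Pi.neg_apply] at h5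
        rw [Pi.zero_apply]
        linarith
      · exact hPne w h1 _ h2 h3 (by rw [htc', neg_neg, htw])
    intro w w' htw
    rcases htri w with h1 | h1 | h1
    · rcases htri w' with h2 | h2 | h2
      · rw [h1.2, h2.2]
      · exact (hmix w w' htw h1.1 h2.1).elim
      · exact absurd (htw.trans h2.2.2.2) (hP0 w h1.1)
    · rcases htri w' with h2 | h2 | h2
      · exact (hmix w' w htw.symm h2.1 h1.1).elim
      · rw [h1.2, h2.2]
      · have h3 : t w = 0 := htw.trans h2.2.2.2
        exact absurd ((ht0 c w).2 h3) (hP0 _ h1.1)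
    · rw [h1.2.2.1]
      exact ((hs0 w').2 (htw.symm.trans h1.2.2.2)).symm
  obtain ⟨H4, H3⟩ := H s ⟨hval, hodd, hsemi⟩ hs0 hfin hrel
  have hcardP : Nat.card {w : W // s w = 1} = P.card := by
    rw [Nat.card_eq_fintype_card, Fintype.card_subtype]
    congr 1
    ext w
    rw [Finset.mem_filter, hs1']
    exact ⟨fun h => h.2, fun h => ⟨Finset.mem_univ _, h⟩⟩
  -- the inverse of `I`
  have hex : ∀ w : {w : W // s w = 1}, ∃ k, I k = w.1 := fun w => ((hPm _).1 ((hs1' _).1 w.2)).2
  choose J hJ using hex
  have hJI : ∀ (k : κ) (h : s (I k) = 1), J ⟨I k, h⟩ = k := fun k h => hI (hJ ⟨I k, h⟩)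
  have hJinj : Function.Injective J := by
    intro a b hab
    apply Subtype.ext
    rw [← hJ a, ← hJ b, hab]
  have hIs : ∀ k, t (I k) ≠ 0 → s (I k) = 1 := fun k hk => hs1 _ ((hPm _).2 ⟨hk, k, rfl⟩)
  rcases h34 with h3 | h4
  · have hK1 : K0.card = 1 := by
      obtain ⟨a, ha⟩ := heven
      omega
    obtain ⟨k0, hk0⟩ := Finset.card_eq_one.1 hK1
    have hz : t (I k0) = 0 := by
      have : k0 ∈ K0 := by rw [hk0]; exact Finset.mem_singleton_self _
      exact (Finset.mem_filter.1 this).2
    have hzu : ∀ k, t (I k) = 0 → k = k0 := by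
      intro k hk
      have : k ∈ K0 := Finset.mem_filter.2 ⟨Finset.mem_univ _, hk⟩
      rw [hk0] at this
      exact Finset.mem_singleton.1 this
    have hbij : Function.Bijective (Sum.elim J (fun _ : Fin 1 => k0)) := by
      constructor
      · rintro (a | a) (b | b) hab
        · exact congrArg Sum.inl (hJinj hab)
        · exfalso
          have h5 : J a = k0 := hab
          have h6 := hJ a
          rw [h5] at h6
          have h7 := hP0 _ ((hs1' _).1 a.2)
          rw [← h6] at h7
          exact h7 hz
        · exfalso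
          have h5 : k0 = J b := hab
          have h6 := hJ b
          rw [← h5] at h6
          have h7 := hP0 _ ((hs1' _).1 b.2)
          rw [← h6] at h7
          exact h7 hz
        · rw [Subsingleton.elim a b]
      · intro k
        by_cases hk : t (I k) = 0
        · exact ⟨Sum.inr 0, (hzu k hk).symm⟩
        · exact ⟨Sum.inl ⟨I k, hIs k hk⟩, hJI k _⟩
    refine hQ.reindex _ _ (Equiv.ofBijective _ hbij) _ _ ?_ (H3 (by rw [hcardP, h3]))
    rintro (a | a)
    · show t (I (J a)) = t a.1
      rw [hJ]
    · show t (I k0) = 0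
      exact hz
  · have hK1 : K0.card = 0 := by
      obtain ⟨a, ha⟩ := heven
      omega
    have hnz : ∀ k, t (I k) ≠ 0 := by
      intro k hk
      have : k ∈ K0 := Finset.mem_filter.2 ⟨Finset.mem_univ _, hk⟩
      rw [Finset.card_eq_zero.1 hK1] at this
      exact absurd this (Finset.notMem_empty _)
    have hbij : Function.Bijective J :=
      ⟨hJinj, fun k => ⟨⟨I k, hIs k (hnz k)⟩, hJI k _⟩⟩
    refine hQ.reindex _ _ (Equiv.ofBijective _ hbij) _ _ ?_ (H4 (by rw [hcardP, h4]))
    intro a
    show t (I (J a)) = t a.1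
    rw [hJ]

end Pool.Agent.W515.TB
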